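import Pool.Agent.Helper90.Final

/-!
# Linearly general geproci sets

Every non-trivial geproci set in projective space of dimension at least three over the complex
numbers contains `n + 1` points lying in a common hyperplane.  In other words: there is no
non-trivial linearly general geproci set.
-/

namespace Pool.Agent.Results.MP_a5c67c_ag.NoLinearlyGeneral

open MvPolynomial
open scoped LinearAlgebra.Projectivization

/-- The points of complex projective `n`-space: the lines through `0` in `ℂ ^ (n + 1)`. -/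
abbrev Point (n : ℕ) : Type := ℙ ℂ (Fin (n + 1) → ℂ)

/-- A hyperplane of projective `n`-space, as a linear subspace of `ℂ ^ (n + 1)` of
dimension `n`.  The point `z` lies on it iff `z.submodule ≤ L`. -/
def IsHyperplane {n : ℕ} (L : Submodule ℂ (Fin (n + 1) → ℂ)) : Prop :=
  Module.finrank ℂ L = n

/-- The image `Z_P` of `Z` under projection from `P` into the hyperplane `H`, where `H` is
identified with the projective space of `ℂ ^ n` by the linear coordinates `e`: all points `q`
such that the point of `H` with coordinates `q` lies on the line joining `P` to some point `z`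
of `Z`. -/
def projectedSet {n : ℕ} (H : Submodule ℂ (Fin (n + 1) → ℂ)) (e : H ≃ₗ[ℂ] (Fin n → ℂ))
    (P : Point n) (Z : Finset (Point n)) : Set (ℙ ℂ (Fin n → ℂ)) :=
  {q | ∃ z ∈ Z, ((e.symm q.rep : H) : Fin (n + 1) → ℂ) ∈ z.submodule ⊔ P.submodule}

/-- The homogeneous ideal of a set of points: it is generated by all forms that vanish at every
point of the set. -/
noncomputable def homogeneousIdeal {n : ℕ} (X : Set (ℙ ℂ (Fin n → ℂ))) : Ideal (MvPolynomial (Fin n) ℂ) :=
  Ideal.span {f | (∃ d : ℕ, f.IsHomogeneous d) ∧ ∀ q ∈ X, eval q.rep f = 0}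

/-- The reduced finite set `X` of points of projective `(n - 1)`-space is a complete
intersection: its homogeneous ideal is generated by a regular sequence of `n - 1` forms. -/
def IsCompleteIntersection {n : ℕ} (X : Set (ℙ ℂ (Fin n → ℂ))) : Prop :=
  ∃ F : List (MvPolynomial (Fin n) ℂ), F.length = n - 1 ∧
    (∀ f ∈ F, ∃ d : ℕ, f.IsHomogeneous d) ∧
    RingTheory.Sequence.IsRegular (MvPolynomial (Fin n) ℂ) F ∧
    Ideal.ofList F = homogeneousIdeal X

/-- `Z` is geproci: for a general point `P`, that is for every `P` outside `H` and outside some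
hypersurface `g = 0`, the projected set is a complete intersection in `H`. -/
def IsGeproci {n : ℕ} (H : Submodule ℂ (Fin (n + 1) → ℂ)) (e : H ≃ₗ[ℂ] (Fin n → ℂ))
    (Z : Finset (Point n)) : Prop :=
  ∃ (d : ℕ) (g : MvPolynomial (Fin (n + 1)) ℂ), g ≠ 0 ∧ g.IsHomogeneous d ∧
    ∀ P : Point n, ¬ P.submodule ≤ H → eval P.rep g ≠ 0 →
      IsCompleteIntersection (projectedSet H e P Z)

/-- `Z` is an `(a, b)`-grid: there are `a` pairwise skew lines and `b` pairwise skew lines, each
line of the first family meets each line of the second family in exactly one point, and `Z`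
consists of these `a * b` points.  (Lines are two-dimensional linear subspaces.) -/
def IsGrid {n : ℕ} (a b : ℕ) (Z : Finset (Point n)) : Prop :=
  a ≤ b ∧ Z.card = a * b ∧
    ∃ (A : Fin a → Submodule ℂ (Fin (n + 1) → ℂ)) (B : Fin b → Submodule ℂ (Fin (n + 1) → ℂ)),
      (∀ i, Module.finrank ℂ (A i) = 2) ∧ (∀ j, Module.finrank ℂ (B j) = 2) ∧
      (∀ i i', i ≠ i' → A i ⊓ A i' = ⊥) ∧ (∀ j j', j ≠ j' → B j ⊓ B j' = ⊥) ∧
      (∀ i j, Module.finrank ℂ (A i ⊓ B j : Submodule ℂ (Fin (n + 1) → ℂ)) = 1) ∧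
      ∀ z : Point n, z ∈ Z ↔ ∃ i j, z.submodule = A i ⊓ B j

/-- `Z` is trivial: it lies in a hyperplane, or `n = 3` and it is a grid. -/
def IsTrivial {n : ℕ} (Z : Finset (Point n)) : Prop :=
  (∃ L : Submodule ℂ (Fin (n + 1) → ℂ), IsHyperplane L ∧ ∀ z ∈ Z, z.submodule ≤ L) ∨
    (n = 3 ∧ ∃ a b : ℕ, IsGrid a b Z)

/-! ### Translation into coordinates -/

open Pool.Agent.Helper90

/-- adapted coordinates -/
lemma exists_coord {n : ℕ} (H : Submodule ℂ (Fin (n + 1) → ℂ)) (e : H ≃ₗ[ℂ] (Fin n → ℂ)) :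
    ∃ Ψ : (Fin (n + 1) → ℂ) ≃ₗ[ℂ] (Fin (n + 1) → ℂ),
      (∀ y : Fin n → ℂ, Ψ (Fin.cons 0 y) = (e.symm y : Fin (n + 1) → ℂ)) ∧
      ∀ x, Ψ x ∈ H → x 0 = 0 := by
  have hH : H ≠ ⊤ := by
    intro h
    have h1 := e.finrank_eq
    rw [h, finrank_top, Module.finrank_fin_fun, Module.finrank_fin_fun] at h1
    omega
  obtain ⟨w, hw⟩ : ∃ w, w ∉ H := by
    by_contra hcon
    push Not at hcon
    exact hH (eq_top_iff.mpr fun x _ => hcon x)
  let F : (Fin (n + 1) → ℂ) →ₗ[ℂ] (Fin (n + 1) → ℂ) :=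
    (LinearMap.proj (R := ℂ) (φ := fun _ : Fin (n + 1) => ℂ) 0).smulRight w +
      H.subtype ∘ₗ e.symm.toLinearMap ∘ₗ (LinearMap.funLeft ℂ ℂ Fin.succ)
  have hF : ∀ x, F x = x 0 • w + (e.symm (fun i => x i.succ) : Fin (n + 1) → ℂ) := fun x => rfl
  have hF0 : ∀ x, F x ∈ H → x 0 = 0 := by
    intro x hx
    by_contra h0
    apply hw
    rw [hF] at hx
    have h1 : x 0 • w ∈ H := by
      have := H.sub_mem hx (e.symm (fun i => x i.succ)).2
      simpa using this
    exact (H.smul_mem_iff h0).mp h1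
  have hinj : Function.Injective F := by
    rw [← LinearMap.ker_eq_bot, LinearMap.ker_eq_bot']
    intro x hx
    have h0 : x 0 = 0 := hF0 x (by rw [hx]; exact H.zero_mem)
    rw [hF, h0, zero_smul, zero_add] at hx
    have h1 : e.symm (fun i => x i.succ) = 0 := by
      apply Subtype.ext
      exact hx
    rw [LinearEquiv.map_eq_zero_iff] at h1
    ext j
    refine Fin.cases h0 (fun i => ?_) j
    exact congrFun h1 i
  refine ⟨LinearEquiv.ofInjectiveEndo F hinj, ?_, ?_⟩
  · intro y
    rw [LinearEquiv.coe_ofInjectiveEndo, hF]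
    simp
  · intro x hx
    rw [LinearEquiv.coe_ofInjectiveEndo] at hx
    exact hF0 x hx

section Bridge

variable {n : ℕ} {H : Submodule ℂ (Fin (n + 1) → ℂ)} {e : H ≃ₗ[ℂ] (Fin n → ℂ)}
  {Ψ : (Fin (n + 1) → ℂ) ≃ₗ[ℂ] (Fin (n + 1) → ℂ)}

lemma mem_projectedSet
    (h1 : ∀ y : Fin n → ℂ, Ψ (Fin.cons 0 y) = (e.symm y : Fin (n + 1) → ℂ))
    {Z : Finset (Point n)} {P : Fin (n + 1) → ℂ} (hP : P 0 ≠ 0) (hP' : Ψ P ≠ 0)
    (q : ℙ ℂ (Fin n → ℂ)) :
    q ∈ projectedSet H e (Projectivization.mk ℂ (Ψ P) hP') Z ↔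
      ∃ z ∈ Z, ∃ s : ℂ, q.rep = s • pr P (Ψ.symm z.rep) := by
  constructor
  · rintro ⟨z, hz, hq⟩
    refine ⟨z, hz, ?_⟩
    rw [Submodule.mem_sup] at hq
    obtain ⟨a, ha, b, hb, hab⟩ := hq
    rw [Projectivization.submodule_eq, Submodule.mem_span_singleton] at ha
    rw [Projectivization.submodule_mk, Submodule.mem_span_singleton] at hb
    obtain ⟨s, rfl⟩ := ha
    obtain ⟨t, rfl⟩ := hb
    rw [← h1] at hab
    have h2 : Fin.cons 0 q.rep = s • Ψ.symm z.rep + t • P := by
      apply Ψ.injective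
      rw [← hab, map_add, map_smul, map_smul, LinearEquiv.apply_symm_apply]
    set x := Ψ.symm z.rep with hx
    have h3 : (0 : ℂ) = s * x 0 + t * P 0 := by
      have := congrFun h2 0
      simpa using this
    refine ⟨s / P 0, ?_⟩
    ext i
    have h4 : q.rep i = s * x i.succ + t * P i.succ := by
      have := congrFun h2 i.succ
      simpa using this
    rw [Pi.smul_apply, smul_eq_mul, h4]
    simp only [pr]
    field_simp
    linear_combination (-P i.succ) * h3
  · rintro ⟨z, hz, s, hs⟩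
    refine ⟨z, hz, ?_⟩
    rw [← h1, hs]
    have h2 : (Fin.cons 0 (s • pr P (Ψ.symm z.rep)) : Fin (n + 1) → ℂ) =
        (s * P 0) • Ψ.symm z.rep - (s * (Ψ.symm z.rep) 0) • P := by
      ext j
      refine Fin.cases ?_ (fun i => ?_) j
      · simp only [Fin.cons_zero, Pi.sub_apply, Pi.smul_apply, smul_eq_mul]
        ring
      · simp only [Fin.cons_succ, Pi.sub_apply, Pi.smul_apply, smul_eq_mul, pr]
        ring
    rw [h2, map_sub, map_smul, map_smul, LinearEquiv.apply_symm_apply]
    apply Submodule.sub_mem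
    · apply Submodule.mem_sup_left
      rw [Projectivization.submodule_eq]
      exact Submodule.smul_mem _ _ (Submodule.mem_span_singleton_self _)
    · apply Submodule.mem_sup_right
      rw [Projectivization.submodule_mk]
      exact Submodule.smul_mem _ _ (Submodule.mem_span_singleton_self _)

lemma homogeneousIdeal_eq
    (h1 : ∀ y : Fin n → ℂ, Ψ (Fin.cons 0 y) = (e.symm y : Fin (n + 1) → ℂ))
    {Z : Finset (Point n)} {P : Fin (n + 1) → ℂ} (hP : P 0 ≠ 0) (hP' : Ψ P ≠ 0)
    (hne : ∀ z : Z, pr P (Ψ.symm z.1.rep) ≠ 0) :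
    homogeneousIdeal (projectedSet H e (Projectivization.mk ℂ (Ψ P) hP') Z) =
      coneIdeal (fun z : Z => pr P (Ψ.symm z.1.rep)) := by
  apply le_antisymm
  · apply Ideal.span_le.mpr
    rintro f ⟨⟨d, hd⟩, hf⟩
    show f ∈ coneIdeal _
    rw [mem_coneIdeal_hom hd]
    intro z
    obtain ⟨s, hs⟩ := Projectivization.exists_smul_eq_mk_rep ℂ _ (hne z)
    have h2 := hf (Projectivization.mk ℂ _ (hne z)) (by
      rw [mem_projectedSet h1 hP hP']
      exact ⟨z.1, z.2, (s : ℂ), hs.symm⟩)
    rw [← hs] at h2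
    have h3 : ((s : ℂ) • pr P (Ψ.symm z.1.rep)) = s • pr P (Ψ.symm z.1.rep) := rfl
    rw [← h3, eval_smul_hom hd] at h2
    exact (mul_eq_zero.mp h2).resolve_left (pow_ne_zero _ s.ne_zero)
  · intro p hp
    rw [← sum_homogeneousComponent p]
    apply Ideal.sum_mem
    intro i _
    apply Ideal.subset_span
    refine ⟨⟨i, homogeneousComponent_isHomogeneous i p⟩, ?_⟩
    intro q hq
    rw [mem_projectedSet h1 hP hP'] at hq
    obtain ⟨z, hz, s, hs⟩ := hq
    rw [hs]
    exact (homI_coneIdeal _ p hp i) ⟨z, hz⟩ s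

lemma ci_of_isCompleteIntersection {ι : Type*} [Nonempty ι] (hn : 1 ≤ n) {v : ι → Fin n → ℂ}
    {X : Set (ℙ ℂ (Fin n → ℂ))} (hX : homogeneousIdeal X = coneIdeal v)
    (h : IsCompleteIntersection X) : ∃ fs, CI v fs := by
  classical
  obtain ⟨F, hF1, hF2, hF3, hF4⟩ := h
  have hr := rseq_of_isWeaklyRegular F hF3.toIsWeaklyRegular
  rw [hX] at hF4
  have hd : ∀ f : MvPolynomial (Fin n) ℂ, f ∈ F → f.IsHomogeneous f.totalDegree ∧
      0 < f.totalDegree := by
    intro f hf
    obtain ⟨d, hd⟩ := hF2 f hf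
    have hf0 : f ≠ 0 := by
      intro h0
      have h1 := rseq_zero ⊥ F hr (by rwa [← h0])
      rw [bot_sup_eq, hF4] at h1
      exact coneIdeal_ne_top _ h1
    rw [hd.totalDegree hf0]
    refine ⟨hd, ?_⟩
    by_contra h0
    have h1 : d = 0 := by omega
    rw [h1, ← totalDegree_zero_iff_isHomogeneous, totalDegree_eq_zero_iff_eq_C] at hd
    have h2 : coeff 0 f ≠ 0 := by
      intro h3
      rw [h3, C_0] at hd
      exact hf0 hd
    have h3 : f ∈ coneIdeal v := by
      rw [← hF4]
      exact Ideal.subset_span hf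
    rw [hd] at h3
    exact coneIdeal_ne_top v (Ideal.eq_top_of_isUnit_mem _ h3
      ((isUnit_iff_ne_zero.mpr h2).map C))
  have hmap : (F.map fun f => (f, f.totalDegree)).map Prod.fst = F := by
    rw [List.map_map]
    exact List.map_id F
  refine ⟨F.map fun f => (f, f.totalDegree), ?_, ?_, ?_, ?_⟩
  · rw [List.length_map, hF1]
    omega
  · intro p hp
    rw [List.mem_map] at hp
    obtain ⟨f, hf, rfl⟩ := hp
    exact ⟨(hd f hf).2, (hd f hf).1⟩
  · rw [hmap]
    exact hr
  · rw [hmap]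
    exact hF4

end Bridge

/-- Four linearly independent points form a `(2, 2)`-grid. -/
lemma isGrid_of_basis {n : ℕ} {Z : Finset (Point n)} (hcard : Z.card = 4)
    (b : Module.Basis (Fin 4) ℂ (Fin (n + 1) → ℂ))
    (hb : ∀ z : Point n, z ∈ Z ↔ ∃ i, z.submodule = Submodule.span ℂ {b i}) : IsGrid 2 2 Z := by
  classical
  set W : Finset (Fin 4) → Submodule ℂ (Fin (n + 1) → ℂ) := fun S =>
    Submodule.span ℂ (b '' (S : Set (Fin 4))) with hW
  have hinf : ∀ S T, W S ⊓ W T = W (S ∩ T) := by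
    intro S T
    ext m
    rw [Submodule.mem_inf, hW]
    simp only [b.mem_span_image, Finset.coe_inter, Set.subset_inter_iff]
  have hrank : ∀ S : Finset (Fin 4), Module.finrank ℂ (W S) = S.card := by
    intro S
    have h1 : W S = Submodule.span ℂ (Set.range fun i : S => b i) := by
      rw [hW]
      simp only
      rw [Set.image_eq_range]
      rfl
    have h3 : LinearIndependent ℂ (fun i : S => b i) :=
      b.linearIndependent.comp _ Subtype.val_injective
    rw [h1, finrank_span_eq_card h3, Fintype.card_coe]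
  have hbot : W ∅ = ⊥ := by simp [hW]
  have hsing : ∀ k, W {k} = Submodule.span ℂ {b k} := by
    intro k
    simp [hW]
  let SA : Fin 2 → Finset (Fin 4) := ![{0, 1}, {2, 3}]
  let SB : Fin 2 → Finset (Fin 4) := ![{0, 2}, {1, 3}]
  have a1 : ∀ i, (SA i).card = 2 := by decide
  have a2 : ∀ i, (SB i).card = 2 := by decide
  have a3 : ∀ i i', i ≠ i' → SA i ∩ SA i' = ∅ := by decide
  have a4 : ∀ i i', i ≠ i' → SB i ∩ SB i' = ∅ := by decide
  have a5 : ∀ i j, ∃ k, SA i ∩ SB j = {k} := by decide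
  have a6 : ∀ k, ∃ i j, SA i ∩ SB j = {k} := by decide
  refine ⟨le_rfl, by rw [hcard], fun i => W (SA i), fun j => W (SB j), ?_, ?_, ?_, ?_, ?_, ?_⟩
  · intro i
    rw [hrank, a1]
  · intro j
    rw [hrank, a2]
  · intro i i' h
    simp only [hinf, a3 i i' h, hbot]
  · intro j j' h
    simp only [hinf, a4 j j' h, hbot]
  · intro i j
    obtain ⟨k, hk⟩ := a5 i j
    rw [hinf, hk, hrank, Finset.card_singleton]
  · intro z
    rw [hb]
    constructor
    · rintro ⟨k, hk⟩
      obtain ⟨i, j, hij⟩ := a6 k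
      refine ⟨i, j, ?_⟩
      rw [hinf, hij, hsing, hk]
    · rintro ⟨i, j, hij⟩
      obtain ⟨k, hk⟩ := a5 i j
      refine ⟨k, ?_⟩
      rw [hij, hinf, hk, hsing]

lemma ker_isHyperplane {n : ℕ} {φ : (Fin (n + 1) → ℂ) →ₗ[ℂ] ℂ} (hφ : φ ≠ 0) :
    IsHyperplane (LinearMap.ker φ) := by
  have h1 := LinearMap.finrank_range_add_finrank_ker φ
  have h2 : LinearMap.range φ = ⊤ := by
    rw [LinearMap.range_eq_top]
    exact LinearMap.surjective hφ
  rw [h2, finrank_top, Module.finrank_self, Module.finrank_fin_fun] at h1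
  unfold IsHyperplane
  omega

/-- **Every non-trivial geproci set in projective `n`-space, `n ≥ 3`, contains `n + 1` points
lying in a common hyperplane.** -/
theorem result : ∀ n : ℕ, 3 ≤ n → ∀ (H : Submodule ℂ (Fin (n + 1) → ℂ))
    (e : H ≃ₗ[ℂ] (Fin n → ℂ)) (Z : Finset (Point n)), IsGeproci H e Z → ¬ IsTrivial Z →
    ∃ L : Submodule ℂ (Fin (n + 1) → ℂ), IsHyperplane L ∧
      ∃ S : Finset (Point n), S ⊆ Z ∧ S.card = n + 1 ∧ ∀ z ∈ S, z.submodule ≤ L := by
  classical
  intro n hn H e Z hgep hnt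
  by_contra hcon
  obtain ⟨Ψ, h1, h2⟩ := exists_coord H e
  set x : Z → Fin (n + 1) → ℂ := fun z => Ψ.symm z.1.rep with hx
  have hxgood : GoodPts x := by
    refine ⟨?_, ?_⟩
    · intro z h0
      rw [hx] at h0
      simp only [LinearEquiv.map_eq_zero_iff] at h0
      exact z.1.rep_nonzero h0
    · intro z z' hne c hc
      apply hne
      apply Subtype.ext
      rw [← z.1.mk_rep, ← z'.1.mk_rep, Projectivization.mk_eq_mk_iff']
      refine ⟨c, ?_⟩
      apply Ψ.symm.injective
      rw [map_smul]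
      exact hc.symm
  have hfun : ∀ (f : (Fin (n + 1) → ℂ) →ₗ[ℂ] ℂ), f ≠ 0 → IsHyperplane
      (LinearMap.ker (f ∘ₗ Ψ.symm.toLinearMap)) := by
    intro f hf
    apply ker_isHyperplane
    intro h0
    apply hf
    refine LinearMap.ext fun v => ?_
    have := LinearMap.congr_fun h0 (Ψ v)
    simpa using this
  have hspan : Submodule.span ℂ (Set.range x) = ⊤ := by
    by_contra hne
    obtain ⟨f, hf1, hf2⟩ := Submodule.exists_le_ker_of_lt_top _ (lt_top_iff_ne_top.mpr hne)
    apply hnt
    refine Or.inl ⟨_, hfun f hf1, ?_⟩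
    intro z hz
    rw [Projectivization.submodule_eq, Submodule.span_singleton_le_iff_mem]
    have h3 : x ⟨z, hz⟩ ∈ LinearMap.ker f := hf2 (Submodule.subset_span ⟨⟨z, hz⟩, rfl⟩)
    exact h3
  have hcard : n + 1 ≤ Fintype.card Z := by
    have h3 := finrank_range_le_card (R := ℂ) x
    rw [Set.finrank, hspan, finrank_top, Module.finrank_fin_fun] at h3
    exact h3
  have hgen : ∀ Y : Finset Z, Y.card ≤ n + 1 → LinearIndependent ℂ (fun l : Y => x l) := by
    intro Y hY
    obtain ⟨Y', hY'1, hY'2⟩ := Finset.exists_superset_card_eq hY hcard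
    have h3 : LinearIndependent ℂ (fun l : Y' => x l) := by
      by_contra hdep
      have h4 : Submodule.span ℂ (Set.range fun l : Y' => x l) ≠ ⊤ := by
        intro h5
        apply hdep
        apply linearIndependent_of_top_le_span_of_card_eq_finrank
        · rw [h5]
        · rw [Fintype.card_coe, hY'2, Module.finrank_fin_fun]
      obtain ⟨f, hf1, hf2⟩ := Submodule.exists_le_ker_of_lt_top _ (lt_top_iff_ne_top.mpr h4)
      apply hcon
      refine ⟨_, hfun f hf1, Y'.map (Function.Embedding.subtype _), ?_, ?_, ?_⟩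
      · intro z hz
        rw [Finset.mem_map] at hz
        obtain ⟨w, _, rfl⟩ := hz
        exact w.2
      · rw [Finset.card_map, hY'2]
      · intro z hz
        rw [Finset.mem_map] at hz
        obtain ⟨w, hw, rfl⟩ := hz
        rw [Projectivization.submodule_eq, Submodule.span_singleton_le_iff_mem]
        have h5 : x w ∈ LinearMap.ker f := hf2 (Submodule.subset_span ⟨⟨w, hw⟩, rfl⟩)
        exact h5
    exact h3.comp (fun l : Y => (⟨l.1, hY'1 l.2⟩ : Y')) (by
      intro l m hlm
      apply Subtype.ext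
      exact congrArg (fun w : Y' => w.1) hlm)
  obtain ⟨d, g, hg0, hgd, hg⟩ := hgep
  choose a ha using fun j : Fin (n + 1) => exists_linForm
    (LinearMap.proj (R := ℂ) (φ := fun _ : Fin (n + 1) => ℂ) j ∘ₗ Ψ.toLinearMap)
  set g' : MvPolynomial (Fin (n + 1)) ℂ := aeval (fun j => linForm (a j)) g with hg'
  have hev : ∀ P, eval P g' = eval (Ψ P) g := by
    intro P
    have h3 : (eval P).comp (aeval (fun j => linForm (a j)) :
        MvPolynomial (Fin (n + 1)) ℂ →ₐ[ℂ] _).toRingHom = eval (Ψ P) := by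
      apply MvPolynomial.ringHom_ext
      · intro r; simp
      · intro j
        simp only [AlgHom.toRingHom_eq_coe, RingHom.coe_comp, RingHom.coe_coe,
          Function.comp_apply, aeval_X, eval_X]
        rw [ha]
        rfl
    exact RingHom.congr_fun h3 g
  have hg'0 : g' ≠ 0 := by
    intro h0
    apply hg0
    apply MvPolynomial.funext
    intro v
    have h3 := hev (Ψ.symm v)
    rw [h0, map_zero, LinearEquiv.apply_symm_apply] at h3
    rw [← h3, map_zero]
  obtain ⟨G₁, hG₁, hG₁'⟩ := generic_good hxgood (by omega)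
  have hnonempty : Nonempty Z := Fintype.card_pos_iff.mp (by omega)
  obtain ⟨hn3, hZ4⟩ := main_vec hxgood hn hspan hgen (mul_ne_zero hg'0 hG₁) (by
    intro P hP hP0
    rw [map_mul] at hP
    have hPg := left_ne_zero_of_mul hP
    have hPG := right_ne_zero_of_mul hP
    rw [hev] at hPg
    have hP' : Ψ P ≠ 0 := by
      intro h0
      rw [LinearEquiv.map_eq_zero_iff] at h0
      rw [h0] at hP0
      exact hP0 rfl
    have hne := (hG₁' P hPG).2.ne
    apply ci_of_isCompleteIntersection (by omega) (homogeneousIdeal_eq h1 hP0 hP' hne)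
    apply hg
    · intro hle
      apply hP0
      apply h2
      apply hle
      rw [Projectivization.submodule_mk]
      exact Submodule.mem_span_singleton_self _
    · obtain ⟨s, hs⟩ := Projectivization.exists_smul_eq_mk_rep ℂ _ hP'
      rw [← hs]
      have h3 : ((s : ℂ) • Ψ P) = s • Ψ P := rfl
      rw [← h3, eval_smul_hom hgd]
      exact mul_ne_zero (pow_ne_zero _ s.ne_zero) hPg)
  subst hn3
  apply hnt
  refine Or.inr ⟨rfl, 2, 2, ?_⟩
  have hli : LinearIndependent ℂ (fun z : Z => z.1.rep) := by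
    have h3 := hgen Finset.univ (by rw [Finset.card_univ, hZ4])
    have h4 : LinearIndependent ℂ x :=
      h3.comp (fun z : Z => (⟨z, Finset.mem_univ z⟩ : (Finset.univ : Finset Z))) (by
        intro z z' hzz
        exact congrArg (fun w : (Finset.univ : Finset Z) => w.1) hzz)
    have h5 := h4.map' Ψ.toLinearMap Ψ.ker
    have h6 : (Ψ.toLinearMap ∘ x) = fun z : Z => z.1.rep := by
      ext z
      simp [hx]
    rw [h6] at h5
    exact h5
  let σ : Fin 4 ≃ Z := (Fintype.equivFinOfCardEq hZ4).symm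
  have hli2 : LinearIndependent ℂ (fun i : Fin 4 => (σ i).1.rep) := hli.comp σ σ.injective
  apply isGrid_of_basis (by rw [← Fintype.card_coe, hZ4])
    (basisOfLinearIndependentOfCardEqFinrank hli2 (by simp))
  intro z
  rw [coe_basisOfLinearIndependentOfCardEqFinrank]
  constructor
  · intro hz
    refine ⟨σ.symm ⟨z, hz⟩, ?_⟩
    rw [Equiv.apply_symm_apply, Projectivization.submodule_eq]
  · rintro ⟨i, hi⟩
    rw [← Projectivization.submodule_eq] at hi
    rw [Projectivization.submodule_injective hi]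
    exact (σ i).2

end Pool.Agent.Results.MP_a5c67c_ag.NoLinearlyGeneral
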